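import Pool.Agent.Helper69.ST.GoalsR

/-!
# ST, packet FR (MP_438009_an): rotation symmetry of the filled domain
-/

set_option autoImplicit false

open MeasureTheory Set Complex Metric Filter
open scoped ContDiff Topology ENNReal

namespace Pool.Agent.Helper45.ST.FR

open Pool.Agent.Helper45.Stek Pool.Agent.Helper69.ST

/-- the rotation as an isometric bijection -/
noncomputable def rotI (c w : ℂ) (hw : ‖w‖ = 1) : ℂ ≃ᵢ ℂ where
  toFun := rot c w
  invFun := rot c w⁻¹
  left_inv z := by
    have h : w ≠ 0 := by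
      intro h
      rw [h, norm_zero] at hw
      exact zero_ne_one hw
    unfold rot
    rw [add_sub_cancel_left, inv_mul_cancel_left₀ h]
    ring
  right_inv z := by
    have h : w ≠ 0 := by
      intro h
      rw [h, norm_zero] at hw
      exact zero_ne_one hw
    unfold rot
    rw [add_sub_cancel_left, mul_inv_cancel_left₀ h]
    ring
  isometry_toFun := by
    refine Isometry.of_dist_eq fun z z' => ?_
    show dist (rot c w z) (rot c w z') = dist z z'
    unfold rot
    rw [dist_eq_norm, dist_eq_norm, show c + w * (z - c) - (c + w * (z' - c)) = w * (z - z') by ring,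
      norm_mul, hw, one_mul]

theorem bdd_iff (e : ℂ ≃ᵢ ℂ) (s : Set ℂ) :
    Bornology.IsBounded (e '' s) ↔ Bornology.IsBounded s := by
  constructor
  · intro h
    have h1 := e.symm.isometry.lipschitz.isBounded_image h
    rwa [← image_comp, show (e.symm ∘ e : ℂ → ℂ) = id from funext fun z => e.symm_apply_apply z,
      image_id] at h1
  · intro h
    exact e.isometry.lipschitz.isBounded_image h

theorem mem_outer (e : ℂ ≃ᵢ ℂ) {Ω : Set ℂ} (h : e '' closure Ω = closure Ω) (z : ℂ) :
    e z ∈ outerC Ω ↔ z ∈ outerC Ω := by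
  have h1 : e '' (closure Ω)ᶜ = (closure Ω)ᶜ := by
    rw [image_compl_eq e.bijective, h]
  have h2 : e z ∈ (closure Ω)ᶜ ↔ z ∈ (closure Ω)ᶜ := by
    conv_lhs => rw [← h1]
    exact e.injective.mem_set_image
  unfold outerC
  rw [mem_ofPred_eq, mem_ofPred_eq, h2]
  refine and_congr_right fun h3 => ?_
  have h4 := e.toHomeomorph.image_connectedComponentIn h3
  have h5 : (e.toHomeomorph : ℂ → ℂ) = e := rfl
  rw [h5, h1] at h4
  rw [← h4, bdd_iff]

theorem t : Pool.Agent.Helper69.ST.S_FR := by
  intro Ω c w hw hΩ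
  have h0 : (rotI c w hw : ℂ → ℂ) = rot c w := rfl
  rw [← h0] at hΩ ⊢
  set e := rotI c w hw
  have hcl : ∀ s : Set ℂ, e '' s = s → e '' closure s = closure s := by
    intro s hs
    have h1 := e.toHomeomorph.image_closure s
    have h2 : (e.toHomeomorph : ℂ → ℂ) = e := rfl
    rw [h2, hs] at h1
    exact h1
  have hout : e '' outerC Ω = outerC Ω := by
    ext z
    constructor
    · rintro ⟨z', hz', rfl⟩
      exact (mem_outer e (hcl Ω hΩ) z').2 hz'
    · intro hz
      refine ⟨e.symm z, ?_, e.apply_symm_apply z⟩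
      rw [← mem_outer e (hcl Ω hΩ), e.apply_symm_apply]
      exact hz
  unfold fill
  rw [image_compl_eq e.bijective, hcl _ hout]

end Pool.Agent.Helper45.ST.FR
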